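import Pool.Agent.Lib.MP_5adcc8_co.Main

set_option autoImplicit false

namespace Pool.Agent.Results.MP_5adcc8_co.Counterexample

open Pool.Agent.Lib.MP_5adcc8_co

/-- `F = {D3, Q1}` is an antichain, `F⁺ = {D3p, Q1p}` arises by inserting an empty row into each
member, `Av F` is bounded and `Av F⁺` is not. -/
theorem result :
    (¬ IntervalMinor D3 Q1 ∧ ¬ IntervalMinor Q1 D3) ∧
    (InsertsEmpty D3 D3p ∧ InsertsEmpty Q1 Q1p) ∧
    Bounded (Av {D3, Q1}) ∧ ¬ Bounded (Av {D3p, Q1p}) :=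
  ⟨⟨not_D_Q, not_Q_D⟩, ⟨ins_D, ins_Q⟩, bounded_F, unbounded_Fp⟩

end Pool.Agent.Results.MP_5adcc8_co.Counterexample
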